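import Mathlib
import Pool.Agent.L0h1.KD.Stm
import Pool.Agent.L0h74.S4

/-! # KD: the translation between the sets of primes and the numbers, ND-KD and ND-LOW -/

set_option autoImplicit false
set_option linter.unusedVariables false

open scoped Classical

namespace Pool.Agent.L0h74.KD.KDL

open Finset Filter
open scoped Topology
open Pool.Agent.N973.ND (Pr m7 ty SS SA kd Cl)
open Pool.Agent.L0h74.S4 (GS mm mm_eq half_lim main_lim KK_ge KK yy props th SS_zero)

/-- the primes of `D` -/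
lemma pr_of {D : ℕ} (h1 : Squarefree D) (h2 : D % 4 = 1) (h3 : D % 7 ≠ 0) :
    ∀ p ∈ D.primeFactors, Pr p := by
  intro p hp
  have hpp := Nat.prime_of_mem_primeFactors hp
  have hd := Nat.dvd_of_mem_primeFactors hp
  refine ⟨hpp, ?_, ?_⟩
  · rintro rfl
    have : D % 2 = 0 := Nat.mod_eq_zero_of_dvd hd
    omega
  · rintro rfl
    exact h3 (Nat.mod_eq_zero_of_dvd hd)

/-- the bijection -/
theorem card_eq (X : ℕ) (G : Finset ℕ → Prop) [DecidablePred G]
    [DecidablePred fun D : ℕ => G D.primeFactors] :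
    ((SS X).filter G).card = ((GS X).filter fun D => G D.primeFactors).card := by
  refine card_bij' (fun S _ => ∏ p ∈ S, p) (fun D _ => D.primeFactors) ?_ ?_ ?_ ?_
  · intro S hS
    rw [mem_filter, SS, mem_filter, Cl] at hS
    obtain ⟨⟨h1, ⟨h2, h3⟩, h4⟩, h5⟩ := hS
    have hpr : ∀ p ∈ S, p.Prime := fun p hp => (h2 p hp).1
    have e1 : (∏ p ∈ S, p).primeFactors = S := Nat.primeFactors_prod hpr
    rw [mem_filter, GS, mem_filter, mem_Icc, e1]
    refine ⟨⟨⟨prod_pos fun p hp => (hpr p hp).pos, h4⟩, ?_, h3, ?_⟩, h5⟩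
    · refine Finset.squarefree_prod_of_pairwise_isCoprime (fun p hp q hq hpq => ?_)
        fun p hp => (hpr p hp).prime.squarefree
      rw [Function.onFun, ← Nat.coprime_iff_isRelPrime]
      exact (Nat.coprime_primes (hpr p hp) (hpr q hq)).2 hpq
    · intro h7
      have h8 : 7 ∣ ∏ p ∈ S, p := Nat.dvd_of_mod_eq_zero h7
      obtain ⟨p, hp, hd⟩ := (Nat.Prime.prime (by norm_num : Nat.Prime 7)).dvd_finsetProd_iff
        (S := S) (fun q => q) |>.1 h8
      exact (h2 p hp).2.2 ((Nat.prime_dvd_prime_iff_eq (by norm_num) (hpr p hp)).1 hd).symm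
  · intro D hD
    rw [mem_filter, GS, mem_filter, mem_Icc] at hD
    obtain ⟨⟨⟨h0, h1⟩, h2, h3, h4⟩, h5⟩ := hD
    have e1 : ∏ p ∈ D.primeFactors, p = D := Nat.prod_primeFactors_of_squarefree h2
    rw [mem_filter, SS, mem_filter, mem_powerset, Cl, e1]
    refine ⟨⟨?_, ⟨pr_of h2 h3 h4, h3⟩, h1⟩, h5⟩
    intro p hp
    have := Nat.le_of_dvd (by omega) (Nat.dvd_of_mem_primeFactors hp)
    rw [mem_range]
    omega
  · intro S hS
    rw [mem_filter, SS, mem_filter, Cl] at hS
    exact Nat.primeFactors_prod fun p hp => (hS.1.2.1.1 p hp).1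
  · intro D hD
    rw [mem_filter, GS, mem_filter, mem_Icc] at hD
    exact Nat.prod_primeFactors_of_squarefree hD.1.2.1

theorem card_eq0 (X : ℕ) : (SS X).card = (GS X).card := by
  have h := card_eq X (fun _ => True)
  simpa using h

theorem kd_eq {D : ℕ} (h : ∀ p ∈ D.primeFactors, Pr p) : kd D.primeFactors = mm D := by
  rw [mm_eq, kd]
  have e3 : D.primeFactors.filter (fun p => ty p = 3) = D.primeFactors.filter
      fun p => p % 4 = 3 ∧ (p % 7 = 1 ∨ p % 7 = 2 ∨ p % 7 = 4) := by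
    apply filter_congr
    intro p _
    unfold ty m7
    split_ifs <;> constructor <;> intro hh <;> omega
  have e1 : D.primeFactors.filter (fun p => ty p = 1) = D.primeFactors.filter
      fun p => p % 4 = 3 ∧ (p % 7 = 3 ∨ p % 7 = 5 ∨ p % 7 = 6) := by
    apply filter_congr
    intro p hp
    have h7 : p % 7 ≠ 0 := by
      intro h7
      have h8 : 7 ∣ p := Nat.dvd_of_mod_eq_zero h7
      exact (h p hp).2.2 ((Nat.prime_dvd_prime_iff_eq (by norm_num) (h p hp).1).1 h8).symm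
    unfold ty m7
    split_ifs <;> constructor <;> intro hh <;> omega
  rw [e3, e1]

theorem low : ∀ᶠ X : ℕ in atTop, 3 / 56 * (X : ℝ) ≤ ((GS X).card : ℝ) ∧ 1 ≤ X := by
  have h0 : Tendsto (fun X : ℕ => ((GS X).card : ℂ) / X - 3 / 14 * KK (yy X)) atTop (𝓝 0) := by
    have h := main_lim 0
    refine h.congr (fun X => ?_)
    have e1 : th 0 X = 0 := by simp [th]
    rw [e1, SS_zero]
    simp
  have h3 : ∀ᶠ X : ℕ in atTop, ‖((GS X).card : ℂ) / X - 3 / 14 * KK (yy X)‖ < 3 / 56 := by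
    have := (tendsto_zero_iff_norm_tendsto_zero.1 h0).eventually_lt_const
      (show (0 : ℝ) < 3 / 56 by norm_num)
    exact this
  filter_upwards [h3, props] with X hX hp
  refine ⟨?_, hp.1⟩
  have hX0 : (0 : ℝ) < X := by exact_mod_cast hp.1
  have k1 := KK_ge (yy X) (by omega)
  have e : ((GS X).card : ℂ) / X - 3 / 14 * KK (yy X) =
      ((((GS X).card : ℝ) / X - 3 / 14 * KK (yy X) : ℝ) : ℂ) := by push_cast; rfl
  rw [e, Complex.norm_real, Real.norm_eq_abs, abs_lt] at hX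
  have h4 : 3 / 56 ≤ ((GS X).card : ℝ) / X := by linarith [hX.1]
  rwa [le_div_iff₀ hX0] at h4

theorem t_LOW : Pool.Agent.N973.ND.S_LOW := by
  obtain ⟨X₀, h⟩ := eventually_atTop.1 low
  refine ⟨3 / 56, X₀, by norm_num, fun X hX => ?_⟩
  rw [card_eq0]
  exact (h X hX).1

theorem GS_le (X : ℕ) : ((GS X).card : ℝ) ≤ X := by
  have h1 : GS X ⊆ Icc 1 X := by
    unfold GS
    exact filter_subset _ _
  have h := card_le_card h1
  rw [Nat.card_Icc] at h
  exact_mod_cast (by omega : (GS X).card ≤ X)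

theorem t_KD : Pool.Agent.N973.ND.S_KD := by
  intro V ε hε
  have h := half_lim (2 * V)
  rw [Metric.tendsto_atTop] at h
  obtain ⟨X₀, h0⟩ := h ε hε
  obtain ⟨X₁, h1⟩ := eventually_atTop.1 low
  refine ⟨max X₀ X₁, fun X hX => ?_⟩
  have h2 := h0 X ((le_max_left _ _).trans hX)
  obtain ⟨h3, h4⟩ := h1 X ((le_max_right _ _).trans hX)
  have hX0 : (0 : ℝ) < X := by exact_mod_cast h4
  have hG : (0 : ℝ) < (GS X).card := by
    have : (0 : ℝ) < 3 / 56 * X := by positivity
    linarith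
  rw [card_eq0, card_eq X (fun S => 2 * (V : ℤ) ≤ kd S)]
  have e : (GS X).filter (fun D => 2 * (V : ℤ) ≤ kd D.primeFactors) =
      (GS X).filter (fun D => ((2 * V : ℕ) : ℤ) ≤ mm D) := by
    apply filter_congr
    intro D hD
    rw [GS, mem_filter] at hD
    rw [kd_eq (pr_of hD.2.1 hD.2.2.1 hD.2.2.2)]
    push_cast
    rfl
  rw [e]
  rw [Real.dist_eq] at h2
  have h5 : ((((GS X).filter (fun D => ((2 * V : ℕ) : ℤ) ≤ mm D)).card : ℝ) -
      1 / 2 * ((GS X).card : ℝ)) = ((((GS X).filter (fun D => ((2 * V : ℕ) : ℤ) ≤ mm D)).card : ℝ) /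
      (GS X).card - 1 / 2) * (GS X).card := by
    field_simp
  rw [h5, abs_mul, abs_of_pos hG]
  exact mul_le_mul h2.le (GS_le X) hG.le hε.le

end Pool.Agent.L0h74.KD.KDL
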