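import Mathlib
import Pool.Agent.L0h1.KD.Stm
import Pool.Agent.L0h74.KD.MER
import Pool.Agent.K7.H83.MA.TK
import Pool.Agent.Y703.CX.Asy

/-! # KD-FEW: few sets have few large inert primes `1` modulo `4` compared with `kd` -/

set_option autoImplicit false
set_option linter.unusedVariables false

open scoped Classical

namespace Pool.Agent.L0h74.KD.FEW

open Finset Filter
open Pool.Agent.Y703.CX (sm la eL zz eL_tendsto)
open Pool.Agent.N973.ND (Pr m7 ty SA kd)
open Pool.Agent.L0h1.KD (n0)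

lemma ty_mod (p : ℕ) : ty p = ty (p % 28) := by
  have h4 : p % 28 % 4 = p % 4 := Nat.mod_mod_of_dvd p (by norm_num)
  have h7 : p % 28 % 7 = p % 7 := Nat.mod_mod_of_dvd p (by norm_num)
  unfold ty m7
  rw [h4, h7]

lemma pr_mod {p : ℕ} (h : Pr p) : p % 2 = 1 ∧ p % 7 ≠ 0 := by
  obtain ⟨h1, h2, h3⟩ := h
  refine ⟨?_, fun h7 => ?_⟩
  · rcases h1.eq_two_or_odd with h | h
    · exact absurd h h2
    · exact h
  · have h8 : 7 ∣ p := Nat.dvd_of_mod_eq_zero h7
    exact h3 ((Nat.prime_dvd_prime_iff_eq (by norm_num) h1).1 h8).symm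

/-- the classes modulo `28` of the types -/
def cl (a : ℕ) : Finset ℕ := (range 28).filter fun c => c % 2 = 1 ∧ c % 7 ≠ 0 ∧ ty c = a

lemma cl_card : ∀ a ∈ range 4, (cl a).card = 3 := by decide

lemma cl_cop : ∀ a ∈ range 4, ∀ c ∈ cl a, c.Coprime 28 ∧ c % 28 = c := by decide

/-- the primes of a type in an interval -/
noncomputable def Pa (a z y : ℕ) : Finset ℕ := (range (y + 1)).filter fun p => (Pr p ∧ ty p = a) ∧ z < p

lemma Pa_eq (a y : ℕ) (ha : a < 4) : ∑ p ∈ Pa a 0 y, (1 : ℝ) / p =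
    ∑ c ∈ cl a, ∑ p ∈ (range (y + 1)).filter (fun p => p.Prime ∧ p % 28 = c % 28), (1 : ℝ) / p := by
  have hmaps : ∀ r ∈ Pa a 0 y, r % 28 ∈ cl a := by
    intro r hr
    rw [Pa, mem_filter] at hr
    obtain ⟨h1, ⟨h2, h3⟩, h4⟩ := hr
    obtain ⟨k2, k7⟩ := pr_mod h2
    rw [cl, mem_filter, mem_range, ← ty_mod]
    exact ⟨Nat.mod_lt _ (by norm_num), by omega, by omega, h3⟩
  rw [← sum_fiberwise_of_maps_to hmaps]
  refine sum_congr rfl fun c hc => ?_
  congr 1
  ext p
  rw [mem_filter, mem_filter, Pa, mem_filter, mem_range]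
  rw [cl, mem_filter, mem_range] at hc
  obtain ⟨c1, c2, c3, c4⟩ := hc
  constructor
  · rintro ⟨⟨h1, ⟨h2, h3⟩, h4⟩, h5⟩
    exact ⟨h1, h2.1, by omega⟩
  · rintro ⟨h1, h2, h3⟩
    have h4 : p % 28 = c := by omega
    refine ⟨⟨h1, ⟨⟨h2, ?_, ?_⟩, ?_⟩, h2.pos⟩, h4⟩
    · rintro rfl
      omega
    · rintro rfl
      omega
    · rw [ty_mod, h4, c4]

lemma mer : ∃ C : ℝ, 0 ≤ C ∧ ∀ a < 4, ∀ y : ℕ, 3 ≤ y →
    |∑ p ∈ Pa a 0 y, (1 : ℝ) / p - 1 / 4 * Real.log (Real.log y)| ≤ C := by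
  choose! c hc using Pool.Agent.L0h74.KD.MER.m28
  have key : ∀ a < 4, ∀ y : ℕ, 3 ≤ y →
      |∑ p ∈ Pa a 0 y, (1 : ℝ) / p - 1 / 4 * Real.log (Real.log y)| ≤ ∑ b ∈ cl a, |c b| := by
    intro a ha y hy
    rw [Pa_eq a y ha]
    have h1 : (1 / 4 : ℝ) * Real.log (Real.log y) = ∑ _b ∈ cl a, 1 / 12 * Real.log (Real.log y) := by
      rw [sum_const, cl_card a (mem_range.2 ha), nsmul_eq_mul]
      push_cast
      ring
    rw [h1, ← sum_sub_distrib]
    refine (abs_sum_le_sum_abs _ _).trans (sum_le_sum fun b hb => ?_)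
    exact (hc b (cl_cop a (mem_range.2 ha) b hb).1 y hy).trans (le_abs_self _)
  refine ⟨∑ a ∈ range 4, ∑ b ∈ cl a, |c b|, sum_nonneg fun _ _ => sum_nonneg fun _ _ => abs_nonneg _,
    fun a ha y hy => (key a ha y hy).trans ?_⟩
  exact single_le_sum (f := fun a => ∑ b ∈ cl a, |c b|)
    (fun _ _ => sum_nonneg fun _ _ => abs_nonneg _) (mem_range.2 ha)

lemma Pa_split (a z y : ℕ) (hzy : z ≤ y) : ∑ p ∈ Pa a z y, (1 : ℝ) / p =
    ∑ p ∈ Pa a 0 y, (1 : ℝ) / p - ∑ p ∈ Pa a 0 z, (1 : ℝ) / p := by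
  rw [eq_sub_iff_add_eq, ← sum_union]
  · congr 1
    ext p
    simp only [Pa, mem_union, mem_filter, mem_range]
    constructor
    · rintro (⟨h1, h2, h3⟩ | ⟨h1, h2, h3⟩)
      · exact ⟨h1, h2, by omega⟩
      · exact ⟨by omega, h2, h3⟩
    · rintro ⟨h1, h2, h3⟩
      rcases lt_or_ge z p with h | h
      · exact Or.inl ⟨h1, h2, h⟩
      · exact Or.inr ⟨by omega, h2, h3⟩
  · rw [disjoint_left]
    intro p hp hq
    simp only [Pa, mem_filter, mem_range] at hp hq
    omega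

/-- few sets have an unusual number of primes in a given set -/
lemma dev (X : ℕ) (P : Finset ℕ) (hP : ∀ p ∈ P, p.Prime) (hX : P ⊆ Icc 1 X) (t : ℝ) (ht : 0 < t) :
    (((SA X).filter fun S => t < |((S.filter (fun p => p ∈ P)).card : ℝ) -
      ∑ p ∈ P, (1 : ℝ) / p|).card : ℝ) * t ^ 2 ≤ 3 * X * ∑ p ∈ P, (1 : ℝ) / p := by
  have hL0 : 0 ≤ ∑ p ∈ P, (1 : ℝ) / p := Finset.sum_nonneg fun p _ => by positivity
  have h1 := Pool.Agent.K7.H83.MA.tk_var P hP X
  have h2 : (P.card : ℝ) ≤ X := by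
    have := card_le_card hX
    rw [Nat.card_Icc] at this
    exact_mod_cast (by omega : P.card ≤ X)
  have h3 : (((SA X).filter fun S => t < |((S.filter (fun p => p ∈ P)).card : ℝ) -
      ∑ p ∈ P, (1 : ℝ) / p|).card : ℝ) * t ^ 2 ≤
      ∑ m ∈ Ioc 0 X, (((P.filter (fun p => p ∣ m)).card : ℝ) - ∑ p ∈ P, (1 : ℝ) / p) ^ 2 := by
    have hmem : ∀ S ∈ SA X, (∀ p ∈ S, p.Prime) ∧ ∏ p ∈ S, p ≤ X := by
      intro S hS
      rw [SA, mem_filter] at hS
      exact ⟨fun p hp => (hS.2.1 p hp).1, hS.2.2⟩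
    have hinj : Set.InjOn (fun S : Finset ℕ => ∏ p ∈ S, p) (SA X : Set (Finset ℕ)) := by
      intro S hS T hT h
      simp only at h
      have e1 : (∏ p ∈ S, p).primeFactors = S := Nat.primeFactors_prod (hmem S hS).1
      have e2 : (∏ p ∈ T, p).primeFactors = T := Nat.primeFactors_prod (hmem T hT).1
      rw [← e1, ← e2, h]
    rw [← nsmul_eq_mul, ← sum_const]
    have e3 : ∀ S ∈ (SA X).filter (fun S => t < |((S.filter (fun p => p ∈ P)).card : ℝ) -
        ∑ p ∈ P, (1 : ℝ) / p|), t ^ 2 ≤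
        (fun m : ℕ => (((P.filter (fun p => p ∣ m)).card : ℝ) - ∑ p ∈ P, (1 : ℝ) / p) ^ 2)
          (∏ p ∈ S, p) := by
      intro S hS
      rw [mem_filter] at hS
      obtain ⟨hS1, hS2⟩ := hS
      have e4 : P.filter (fun p => p ∣ ∏ q ∈ S, q) = S.filter (fun p => p ∈ P) := by
        ext p
        rw [mem_filter, mem_filter]
        constructor
        · rintro ⟨hp, hd⟩
          have := (hP p hp).prime.dvd_finsetProd_iff (S := S) (fun q => q)
          obtain ⟨q, hq, hpq⟩ := this.1 hd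
          rw [(Nat.prime_dvd_prime_iff_eq (hP p hp) ((hmem S hS1).1 q hq)).1 hpq]
          exact ⟨hq, by rw [← (Nat.prime_dvd_prime_iff_eq (hP p hp) ((hmem S hS1).1 q hq)).1 hpq]; exact hp⟩
        · rintro ⟨hp, hq⟩
          exact ⟨hq, dvd_prod_of_mem (fun q => q) hp⟩
      simp only
      rw [e4, ← sq_abs (_ - _)]
      exact pow_le_pow_left₀ ht.le hS2.le 2
    refine (sum_le_sum e3).trans ?_
    rw [← sum_image (f := fun m : ℕ => (((P.filter (fun p => p ∣ m)).card : ℝ) -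
      ∑ p ∈ P, (1 : ℝ) / p) ^ 2) (g := fun S : Finset ℕ => ∏ p ∈ S, p)]
    · refine sum_le_sum_of_subset_of_nonneg ?_ fun _ _ _ => sq_nonneg _
      intro m hm
      rw [mem_image] at hm
      obtain ⟨S, hS, rfl⟩ := hm
      rw [mem_filter] at hS
      have := hmem S hS.1
      rw [mem_Ioc]
      exact ⟨prod_pos fun p hp => (this.1 p hp).pos, this.2⟩
    · intro S hS T hT h
      exact hinj (mem_filter.1 hS).1 (mem_filter.1 hT).1 h
  refine h3.trans (h1.trans ?_)
  nlinarith [mul_le_mul_of_nonneg_left h2 hL0]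

lemma log_small (δ : ℝ) (hδ : 0 < δ) : ∀ᶠ x : ℝ in atTop, Real.log x ≤ δ * x := by
  have h := Real.isLittleO_log_id_atTop.def hδ
  filter_upwards [h, eventually_ge_atTop (1 : ℝ)] with x hx h1
  rw [Real.norm_eq_abs, Real.norm_eq_abs, id, abs_of_nonneg (Real.log_nonneg h1),
    abs_of_nonneg (by linarith)] at hx
  exact hx

theorem t_FEW : Pool.Agent.L0h1.KD.S_FEW := by
  intro V ε hε
  obtain ⟨C, hC0, hC⟩ := mer
  have ev : ∀ᶠ X : ℕ in atTop, (((SA X).filter fun S => (n0 (zz X) S : ℤ) < 3 * kd S + V).card : ℝ) ≤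
      ε * X := by
    filter_upwards [eL_tendsto.eventually (log_small (1 / 24) (by norm_num)),
      eL_tendsto.eventually (eventually_ge_atTop (max 2 (max (400 * (C + 1) + 100 * V) (1000000 / ε)))),
      eventually_ge_atTop 3] with X h1 h2 h3
    have l2 : 2 ≤ eL X := (le_max_left _ _).trans h2
    have l3 : 400 * (C + 1) + 100 * V ≤ eL X := (le_max_left _ _).trans ((le_max_right _ _).trans h2)
    have l4 : 1000000 / ε ≤ eL X := (le_max_right _ _).trans ((le_max_right _ _).trans h2)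
    have hV0 : (0 : ℝ) ≤ V := Nat.cast_nonneg V
    set l := eL X with hl
    have hX0 : (0 : ℝ) < X := by exact_mod_cast (by omega : 0 < X)
    -- the bounds of z
    have hz3 : 3 ≤ zz X := by
      unfold zz
      apply Nat.le_floor
      have h := Real.add_one_le_exp ((eL X) ^ 3)
      have h' : (8 : ℝ) ≤ (eL X) ^ 3 := by
        have := pow_le_pow_left₀ (by norm_num : (0 : ℝ) ≤ 2) l2 3
        linarith
      push_cast
      linarith
    have hz0 : (0 : ℝ) < zz X := by exact_mod_cast (by omega : 0 < zz X)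
    have hzlog : Real.log (zz X) ≤ l ^ 3 := by
      rw [Real.log_le_iff_le_exp hz0]
      exact Nat.floor_le (Real.exp_pos _).le
    have hzlog0 : 0 < Real.log (zz X) := Real.log_pos (by exact_mod_cast (by omega : 1 < zz X))
    have hzll : Real.log (Real.log (zz X)) ≤ 3 * Real.log l := by
      have := Real.log_le_log hzlog0 hzlog
      rw [Real.log_pow] at this
      exact_mod_cast this
    have hlogl : 0 ≤ Real.log l := Real.log_nonneg (by linarith)
    set L0 := ∑ p ∈ Pa 0 (zz X) X, (1 : ℝ) / p with hL0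
    set L1 := ∑ p ∈ Pa 1 0 X, (1 : ℝ) / p with hL1
    set L3 := ∑ p ∈ Pa 3 0 X, (1 : ℝ) / p with hL3
    have b1 := abs_le.1 (hC 1 (by norm_num) X h3)
    have b3 := abs_le.1 (hC 3 (by norm_num) X h3)
    have b0 := abs_le.1 (hC 0 (by norm_num) X h3)
    have bz := abs_le.1 (hC 0 (by norm_num) (zz X) hz3)
    have ell : Real.log (Real.log X) = l := rfl
    rw [ell, ← hL1] at b1
    rw [ell, ← hL3] at b3
    rw [ell] at b0
    have hL0le : L0 ≤ ∑ p ∈ Pa 0 0 X, (1 : ℝ) / p := by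
      refine sum_le_sum_of_subset_of_nonneg ?_ fun _ _ _ => by positivity
      intro p hp
      simp only [Pa, mem_filter, mem_range] at hp ⊢
      exact ⟨hp.1, hp.2.1, by omega⟩
    have hL0ge : ∑ p ∈ Pa 0 0 X, (1 : ℝ) / p - ∑ p ∈ Pa 0 0 (zz X), (1 : ℝ) / p ≤ L0 := by
      rcases le_or_gt (zz X) X with h | h
      · rw [hL0, Pa_split 0 (zz X) X h]
      · have e1 : ∑ p ∈ Pa 0 0 X, (1 : ℝ) / p ≤ ∑ p ∈ Pa 0 0 (zz X), (1 : ℝ) / p := by
          refine sum_le_sum_of_subset_of_nonneg ?_ fun _ _ _ => by positivity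
          intro p hp
          simp only [Pa, mem_filter, mem_range] at hp ⊢
          exact ⟨by omega, hp.2.1, by omega⟩
        have e2 : 0 ≤ L0 := sum_nonneg fun _ _ => by positivity
        linarith
    obtain ⟨t, ht⟩ : ∃ t : ℝ, t = l / 56 := ⟨_, rfl⟩
    have ht0 : 0 < t := by rw [ht]; positivity
    have hPp : ∀ a z : ℕ, ∀ p ∈ Pa a z X, p.Prime := by
      intro a z p hp
      rw [Pa, mem_filter] at hp
      exact hp.2.1.1.1
    have hPs : ∀ a z : ℕ, Pa a z X ⊆ Icc 1 X := by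
      intro a z p hp
      have := (hPp a z p hp).pos
      rw [Pa, mem_filter, mem_range] at hp
      rw [mem_Icc]
      omega
    have d0 := dev X (Pa 0 (zz X) X) (hPp _ _) (hPs _ _) t ht0
    have d1 := dev X (Pa 1 0 X) (hPp _ _) (hPs _ _) t ht0
    have d3 := dev X (Pa 3 0 X) (hPp _ _) (hPs _ _) t ht0
    rw [← hL0] at d0
    rw [← hL1] at d1
    rw [← hL3] at d3
    have hcov : ((SA X).filter fun S => (n0 (zz X) S : ℤ) < 3 * kd S + V) ⊆
        ((SA X).filter fun S => t < |((S.filter (fun p => p ∈ Pa 0 (zz X) X)).card : ℝ) - L0|) ∪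
        (((SA X).filter fun S => t < |((S.filter (fun p => p ∈ Pa 1 0 X)).card : ℝ) - L1|) ∪
        ((SA X).filter fun S => t < |((S.filter (fun p => p ∈ Pa 3 0 X)).card : ℝ) - L3|)) := by
      intro S hS
      rw [mem_filter] at hS
      obtain ⟨hS1, hS2⟩ := hS
      by_contra hcon
      simp only [mem_union, mem_filter, not_or, not_and, not_lt] at hcon
      obtain ⟨c0, c1, c3⟩ := hcon
      have c0 := abs_le.1 (c0 hS1)
      have c1 := abs_le.1 (c1 hS1)
      have c3 := abs_le.1 (c3 hS1)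
      have hS3 := hS1
      rw [SA, mem_filter, mem_powerset] at hS3
      have e0 : S.filter (fun p => p ∈ Pa 0 (zz X) X) = (la (zz X) S).filter fun p => ty p = 0 := by
        ext p
        rw [la, mem_filter, mem_filter, mem_filter, Pa, mem_filter]
        constructor
        · rintro ⟨h1, h2, ⟨h3, h4⟩, h5⟩
          exact ⟨⟨h1, by omega⟩, h4⟩
        · rintro ⟨⟨h1, h2⟩, h3⟩
          exact ⟨h1, hS3.1 h1, ⟨hS3.2.1 p h1, h3⟩, by omega⟩
      have e1 : ∀ a : ℕ, S.filter (fun p => p ∈ Pa a 0 X) = S.filter fun p => ty p = a := by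
        intro a
        ext p
        rw [mem_filter, mem_filter, Pa, mem_filter]
        constructor
        · rintro ⟨h1, h2, ⟨h3, h4⟩, h5⟩
          exact ⟨h1, h4⟩
        · rintro ⟨h1, h3⟩
          exact ⟨h1, hS3.1 h1, ⟨hS3.2.1 p h1, h3⟩, (hS3.2.1 p h1).1.pos⟩
      rw [e0] at c0
      rw [e1] at c1 c3
      have hS4 : (n0 (zz X) S : ℝ) < 3 * (((S.filter fun p => ty p = 3).card : ℝ) -
          ((S.filter fun p => ty p = 1).card : ℝ)) + V := by
        have : ((n0 (zz X) S : ℤ) : ℝ) < ((3 * kd S + (V : ℤ) : ℤ) : ℝ) := Int.cast_lt.2 hS2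
        unfold kd at this
        rw [Int.cast_add, Int.cast_mul, Int.cast_sub, Int.cast_natCast, Int.cast_natCast,
          Int.cast_natCast, Int.cast_natCast] at this
        exact_mod_cast this
      unfold n0 at hS4
      linarith
    have hcard := (card_le_card hcov).trans ((card_union_le _ _).trans
      (Nat.add_le_add_left (card_union_le _ _) _))
    have hcard' : (((SA X).filter fun S => (n0 (zz X) S : ℤ) < 3 * kd S + V).card : ℝ) ≤
        (((SA X).filter fun S => t < |((S.filter (fun p => p ∈ Pa 0 (zz X) X)).card : ℝ) - L0|).card : ℝ) +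
        ((((SA X).filter fun S => t < |((S.filter (fun p => p ∈ Pa 1 0 X)).card : ℝ) - L1|).card : ℝ) +
        (((SA X).filter fun S => t < |((S.filter (fun p => p ∈ Pa 3 0 X)).card : ℝ) - L3|).card : ℝ)) := by
      exact_mod_cast hcard
    have f1 : (((SA X).filter fun S => (n0 (zz X) S : ℤ) < 3 * kd S + V).card : ℝ) * t ^ 2 ≤
        3 * X * (3 * l) := by
      have g0 : 3 * (X : ℝ) * L0 ≤ 3 * X * l := by
        refine mul_le_mul_of_nonneg_left ?_ (by positivity)
        linarith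
      have g1 : 3 * (X : ℝ) * L1 ≤ 3 * X * l := by
        refine mul_le_mul_of_nonneg_left ?_ (by positivity)
        linarith
      have g3 : 3 * (X : ℝ) * L3 ≤ 3 * X * l := by
        refine mul_le_mul_of_nonneg_left ?_ (by positivity)
        linarith
      have := mul_le_mul_of_nonneg_right hcard' (sq_nonneg t)
      linarith
    have hl0 : 0 < l := by linarith
    have hεl : 1000000 ≤ ε * l := by
      rw [div_le_iff₀ hε] at l4
      linarith
    have f2 : 3 * (X : ℝ) * (3 * l) ≤ ε * X * t ^ 2 := by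
      rw [ht]
      have : 3 * (X : ℝ) * (3 * l) = X * l * 9 := by ring
      rw [this]
      have e9 : ε * X * (l / 56) ^ 2 = X * l * ((ε * l) / 3136) := by ring
      rw [e9]
      refine mul_le_mul_of_nonneg_left ?_ (by positivity)
      linarith
    exact le_of_mul_le_mul_right (f1.trans f2) (by positivity)
  obtain ⟨X₀, hX₀⟩ := eventually_atTop.1 ev
  exact ⟨X₀, hX₀⟩

end Pool.Agent.L0h74.KD.FEW
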