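import Mathlib
import Pool.Agent.L0h1.KD.Stm
import Pool.Agent.L0h74.KD.CNT
import Pool.Agent.L0h74.KD.BAD
import Pool.Agent.L0h74.KD.FEW
import Pool.Agent.L0h74.KD.KDL
import Pool.Agent.N218.GB.Asy

/-! # KD: the final asymptotics -/

set_option autoImplicit false
set_option linter.unusedVariables false

open scoped Classical
open Finset Filter
open scoped Topology

namespace Pool.Agent.L0h74.KD.Den

open Pool.Agent.N973.ND (Pr m7 ty SS SA kd Cl Gd Nd RecA S_NEG CntP)
open Pool.Agent.L0h1.KD (n0 RG S_KY S_DEN)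
open Pool.Agent.Y703.CQ (c2)
open Pool.Agent.Y703.CX (sm la jj XX eL zz kk eL_tendsto logX_eq HH NN ev_eL one_le_exp
  HH_ge HH_le HH_pos kk_ge kk_le X_pos one_add_log lin_le kap zz_ge zz_pos kap_nonneg kap_pow kap_le)
open Pool.Agent.N218.GB.Asy (Sml sml_of sml_add sml_eps sml_main cmp)

/-! ### The constant -/

theorem c2_mem : 0 ≤ c2 ∧ c2 ≤ 1 := by
  have hf : ∀ i : ℕ, 0 ≤ (1 - (1 / 2 : ℝ) ^ (2 * i + 1)) ∧ (1 - (1 / 2 : ℝ) ^ (2 * i + 1)) ≤ 1 := by
    intro i
    have h1 : (1 / 2 : ℝ) ^ (2 * i + 1) ≤ 1 := pow_le_one₀ (by norm_num) (by norm_num)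
    have h2 : (0 : ℝ) ≤ (1 / 2 : ℝ) ^ (2 * i + 1) := by positivity
    constructor <;> linarith
  unfold c2
  by_cases hm : Multipliable fun i : ℕ => (1 - (1 / 2 : ℝ) ^ (2 * i + 1))
  · have h1 := hm.hasProd
    constructor
    · exact ge_of_tendsto' h1 fun s => Finset.prod_nonneg fun i _ => (hf i).1
    · exact le_of_tendsto' h1 fun s => Finset.prod_le_one (fun i _ => (hf i).1) fun i _ => (hf i).2
  · rw [tprod_eq_one_of_not_multipliable hm]
    exact ⟨zero_le_one, le_rfl⟩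

/-! ### Negligible errors -/

/-- sets with many primes -/
theorem sml_many (h : CntP) : Sml fun X => (((SA X).filter fun S => kk X < S.card).card : ℝ) := by
  apply sml_of (C := 2) (a := 1) (by norm_num)
  filter_upwards [ev_eL 1] with X hX
  have h0 : 0 < eL X := by linarith
  have h1 := h.many X (kk X) (X_pos h0)
  have h2 : Real.exp (2 * eL X) ≤ 2 ^ kk X := by
    have e : (2 : ℝ) ^ kk X = Real.exp (kk X * Real.log 2) := by
      rw [mul_comm, Real.exp_mul, Real.exp_log (by norm_num), Real.rpow_natCast]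
    rw [e]
    apply Real.exp_le_exp.2
    have h3 := kk_ge X
    have h4 := Real.log_two_gt_d9
    nlinarith
  have hX0 : (0 : ℝ) ≤ X := Nat.cast_nonneg _
  have h5 : (((SA X).filter fun S => kk X < S.card).card : ℝ) * Real.exp (2 * eL X) ≤
      X * (2 * Real.exp (eL X)) := by
    calc _ ≤ (((SA X).filter fun S => kk X < S.card).card : ℝ) * 2 ^ kk X := by gcongr
      _ ≤ X * (1 + Real.log X) := h1
      _ ≤ _ := mul_le_mul_of_nonneg_left (one_add_log h0) hX0
  have h6 : (2 : ℝ) * (X * Real.exp (-1 * eL X)) * Real.exp (2 * eL X) = X * (2 * Real.exp (eL X)) := by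
    have e : Real.exp (-1 * eL X) * Real.exp (2 * eL X) = Real.exp (eL X) := by
      rw [← Real.exp_add]; congr 1; ring
    calc _ = 2 * X * (Real.exp (-1 * eL X) * Real.exp (2 * eL X)) := by ring
      _ = _ := by rw [e]; ring
  rw [← h6] at h5
  exact le_of_mul_le_mul_right h5 (Real.exp_pos _)

/-- sets near the boundary -/
theorem sml_cut (h : CntP) : Sml fun X => (((SA X).filter fun S => S.card ≤ kk X ∧
    X < (∏ p ∈ sm (zz X) S, p) * ∏ p ∈ la (zz X) S, XX (HH X) (jj (HH X) p)).card : ℝ) := by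
  apply sml_of (C := 2) (a := 1) (by norm_num)
  have hlog : ∀ᶠ X : ℕ in atTop, Real.exp (eL X) ≤ X := by
    filter_upwards [ev_eL 1] with X hX
    rw [← logX_eq (by linarith)]
    exact (Real.log_le_sub_one_of_pos (by exact_mod_cast X_pos (by linarith))).trans (by linarith)
  filter_upwards [ev_eL 1, lin_le (a := 1) (b := 11) (by norm_num) (by norm_num), hlog] with X hX h11 hl
  have h0 : 0 < eL X := by linarith
  have h1 := h.cut X (zz X) (HH X) (kk X) (X_pos h0) (HH_pos h0)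
  refine h1.trans ?_
  have hH := HH_ge h0
  have hHp : (0 : ℝ) < HH X := lt_of_lt_of_le (Real.exp_pos _) hH
  have hX0 : (0 : ℝ) ≤ X := Nat.cast_nonneg _
  have h2 : (X : ℝ) * kk X / HH X ≤ X * Real.exp (-1 * eL X) := by
    rw [div_le_iff₀ hHp]
    calc (X : ℝ) * kk X ≤ X * Real.exp (eL X) := by
          have := kk_le hX
          rw [one_mul] at h11
          have : (kk X : ℝ) ≤ Real.exp (eL X) := by linarith
          gcongr
      _ ≤ X * (Real.exp (-1 * eL X) * Real.exp (3 * eL X)) := by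
          rw [← Real.exp_add]
          apply mul_le_mul_of_nonneg_left _ hX0
          apply Real.exp_le_exp.2
          linarith
      _ ≤ X * Real.exp (-1 * eL X) * HH X := by
          rw [mul_assoc]
          gcongr
  have h3 : (1 : ℝ) ≤ X * Real.exp (-1 * eL X) := by
    have e : Real.exp (eL X) * Real.exp (-1 * eL X) = 1 := by
      rw [← Real.exp_add]
      have : eL X + -1 * eL X = 0 := by ring
      rw [this, Real.exp_zero]
    calc (1 : ℝ) = Real.exp (eL X) * Real.exp (-1 * eL X) := e.symm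
      _ ≤ X * Real.exp (-1 * eL X) := mul_le_mul_of_nonneg_right hl (Real.exp_pos _).le
  linarith

/-- sets with two primes in one block -/
theorem sml_coll (h : CntP) : Sml fun X => (((SA X).filter fun S =>
    ¬ Set.InjOn (jj (HH X)) (la (zz X) S : Set ℕ)).card : ℝ) := by
  apply sml_of (C := 8) (a := 2) (by norm_num)
  filter_upwards [ev_eL 1] with X hX
  have h0 : 0 < eL X := by linarith
  have h1 := h.coll X (zz X) (HH X) (X_pos h0) (HH_pos h0)
  refine h1.trans ?_
  have hH := HH_ge h0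
  have hHp : (0 : ℝ) < HH X := lt_of_lt_of_le (Real.exp_pos _) hH
  have hX0 : (0 : ℝ) ≤ X := Nat.cast_nonneg _
  rw [div_le_iff₀ hHp]
  calc 4 * (X : ℝ) * (1 + Real.log X) ≤ 4 * X * (2 * Real.exp (eL X)) := by
        have := one_add_log h0
        gcongr
    _ = 8 * (X * (Real.exp (-2 * eL X) * Real.exp (3 * eL X))) := by
        rw [← Real.exp_add]
        have : -2 * eL X + 3 * eL X = eL X := by ring
        rw [this]
        ring
    _ ≤ 8 * (X * (Real.exp (-2 * eL X) * HH X)) := by gcongr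
    _ = 8 * (X * Real.exp (-2 * eL X)) * HH X := by ring

/-- the main error term -/
theorem sml_main9 {C : ℝ} (hC : 1 ≤ C) : Sml fun X => (9 * (NN X : ℝ) + 9) ^ kk X *
    (3 ^ (9 * kk X ^ 2 + 9) * kap C X) * (X * (1 + Real.log X)) := by
  intro δ hδ
  filter_upwards [sml_main hC δ hδ] with X hX
  refine le_trans ?_ hX
  have := kap_nonneg hC X
  have : 0 ≤ 1 + Real.log X := by
    have := Real.log_natCast_nonneg X
    linarith
  have h0 : (0 : ℝ) ≤ NN X := Nat.cast_nonneg _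
  have h9 : 9 * (NN X : ℝ) + 9 ≤ 120 * NN X + 120 := by linarith
  gcongr

/-! ### The sets -/

theorem SS_sub (X : ℕ) : SS X ⊆ SA X := by
  intro S hS
  unfold SS SA at *
  rw [mem_filter] at hS ⊢
  exact ⟨hS.1, hS.2.1.1, hS.2.2⟩

/-- the number of all the sets -/
theorem SA_card (X : ℕ) : (SA X).card ≤ X := by
  have h1 : ((SA X).image fun S => ∏ p ∈ S, p).card = (SA X).card := by
    apply card_image_of_injOn
    intro S hS T hT h
    unfold SA at hS hT
    rw [Finset.mem_coe, Finset.mem_filter] at hS hT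
    rw [← Nat.primeFactors_prod fun p hp => (hS.2.1 p hp).1,
      ← Nat.primeFactors_prod fun p hp => (hT.2.1 p hp).1]
    exact congrArg _ h
  have h2 : (SA X).image (fun S => ∏ p ∈ S, p) ⊆ Icc 1 X := by
    intro n hn
    rw [Finset.mem_image] at hn
    obtain ⟨S, hS, rfl⟩ := hn
    unfold SA at hS
    rw [Finset.mem_filter] at hS
    rw [Finset.mem_Icc]
    exact ⟨Finset.prod_pos fun p hp => (hS.2.1 p hp).1.pos, hS.2.2⟩
  have h3 := card_le_card h2
  rw [h1, Nat.card_Icc] at h3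
  omega

/-- the sets outside the regular part -/
theorem out_sub (X z H k V : ℕ) :
    ((SS X).filter fun S => 2 * (V : ℤ) ≤ kd S) \
      ((RG X z H k V).filter fun S => Nd (sm z S) (la z S)) ⊆
      (((((SA X).filter fun S => k < S.card) ∪
      ((SA X).filter fun S => S.card ≤ k ∧
        X < (∏ p ∈ sm z S, p) * ∏ p ∈ la z S, XX H (jj H p))) ∪
      ((SA X).filter fun S => ¬ Set.InjOn (jj H) (la z S : Set ℕ))) ∪
      ((SA X).filter fun S => (n0 z S : ℤ) < 3 * kd S + ((3 * V : ℕ) : ℤ))) ∪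
      ((SA X).filter fun S => S.card ≤ k ∧ ¬ Nd (sm z S) (la z S)) := by
  intro S hS
  rw [Finset.mem_sdiff, Finset.mem_filter, Finset.mem_filter] at hS
  obtain ⟨⟨h1', hV⟩, h2⟩ := hS
  have h1 := SS_sub X h1'
  simp only [mem_union, mem_filter]
  by_contra hc
  push Not at hc
  obtain ⟨⟨⟨⟨c1, c2⟩, c3⟩, c4⟩, c5⟩ := hc
  have d1 : S.card ≤ k := c1 h1
  have d2 := c2 h1 d1
  have d3 := c3 h1
  have d4 := c4 h1
  have d5 := c5 h1 d1
  apply h2
  refine ⟨?_, d5⟩
  unfold RG
  rw [mem_filter]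
  refine ⟨h1', d3, d1, d2, hV, ?_⟩
  push_cast at d4
  linarith

/-- **The proportion of the good sets, from the parts.** -/
theorem t_DQ (hKY : S_KY) (hNEG : S_NEG) (A : ℕ → ℕ → ZMod 2) (b : ℕ → ZMod 2) (hA : RecA A) :
    ∀ ε : ℝ, 0 < ε → ∀ᶠ X : ℕ in atTop,
      |(((SS X).filter (Gd A b)).card : ℝ) - c2 / 2 * ((SS X).card : ℝ)| ≤ ε * X := by
  intro ε hε
  -- the parameter `V`
  obtain ⟨V₀, hV₀⟩ := exists_pow_lt_of_lt_one (show 0 < ε / 12 by positivity)
    (show (1 / 2 : ℝ) < 1 by norm_num)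
  obtain ⟨V, hV1, hV2⟩ : ∃ V : ℕ, 1 ≤ V ∧ (1 / 2 : ℝ) ^ V ≤ ε / 12 := by
    refine ⟨V₀ + 1, by omega, ?_⟩
    rw [pow_succ]
    have : (0 : ℝ) < (1 / 2 : ℝ) ^ V₀ := by positivity
    linarith
  obtain ⟨C, hC1, hkey⟩ := hKY
  have s1 := sml_many Pool.Agent.L0h74.KD.CNT.t_CNT
  have s2 := sml_cut Pool.Agent.L0h74.KD.CNT.t_CNT
  have s3 := sml_coll Pool.Agent.L0h74.KD.CNT.t_CNT
  have s4 := sml_eps (Pool.Agent.L0h74.KD.FEW.t_FEW (3 * V))
  have s5 := sml_eps Pool.Agent.L0h74.KD.BAD.t_BAD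
  have s8 := sml_main9 hC1
  have stot := sml_add (sml_add (sml_add (sml_add (sml_add s1 s2) s3) s4) s5) s8
  have hev := stot (ε / 4) (by linarith)
  obtain ⟨X₁, hX₁⟩ := Pool.Agent.L0h74.KD.KDL.t_KD V (ε / 8) (by linarith)
  obtain ⟨X₂, hX₂⟩ := Pool.Agent.L0h74.KD.KDL.t_KD 0 (ε / 8) (by linarith)
  filter_upwards [hev, ev_eL 1, eventually_ge_atTop X₁, eventually_ge_atTop X₂] with X hX hl hk1 hk2
  have hKD1 := hX₁ X hk1
  have hKD2 := hX₂ X hk2
  have hl0 : 0 < eL X := by linarith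
  have hXp := X_pos hl0
  have hNN : (HH X : ℝ) * Real.log X < NN X := by
    unfold NN
    push_cast
    exact Nat.lt_floor_add_one _
  have hmain := hkey A b hA X (zz X) (HH X) (kk X) V (NN X) (kap C X) hXp (HH_pos hl0)
    (zz_pos hl) hV1 (kap_nonneg hC1 X) (kap_pow hC1 hl) hNN
  set T := (RG X (zz X) (HH X) (kk X) V).filter fun S => Nd (sm (zz X) S) (la (zz X) S) with hT
  set R := (SS X).filter fun S => 2 * (V : ℤ) ≤ kd S with hR
  have hTG : (RG X (zz X) (HH X) (kk X) V).filter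
      (fun S => Nd (sm (zz X) S) (la (zz X) S) ∧ Gd A b S) = T.filter (Gd A b) := by
    rw [hT, filter_filter]
  rw [hTG] at hmain
  have hTR : T ⊆ R := by
    intro S hS
    rw [hT, mem_filter, RG, mem_filter] at hS
    rw [hR, mem_filter]
    exact ⟨hS.1.1, hS.1.2.2.2.2.1⟩
  have hRS : ((RG X (zz X) (HH X) (kk X) V).card : ℝ) ≤ X := by
    exact_mod_cast (card_le_card ((filter_subset _ _).trans (SS_sub X))).trans (SA_card X)
  have hcmp := cmp (Gd A b) T R hTR c2 c2_mem.1 c2_mem.2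
  have hout : ((R \ T).card : ℝ) ≤
      ((((((SA X).filter fun S => kk X < S.card).card : ℝ) +
      (((SA X).filter fun S => S.card ≤ kk X ∧
        X < (∏ p ∈ sm (zz X) S, p) * ∏ p ∈ la (zz X) S, XX (HH X) (jj (HH X) p)).card : ℝ)) +
      (((SA X).filter fun S => ¬ Set.InjOn (jj (HH X)) (la (zz X) S : Set ℕ)).card : ℝ)) +
      (((SA X).filter fun S => (n0 (zz X) S : ℤ) < 3 * kd S + ((3 * V : ℕ) : ℤ)).card : ℝ) +
      (((SA X).filter fun S => S.card ≤ kk X ∧ ¬ Nd (sm (zz X) S) (la (zz X) S)).card : ℝ)) := by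
    have g := card_le_card (out_sub X (zz X) (HH X) (kk X) V)
    rw [← hT, ← hR] at g
    have g2 := (g.trans (card_union_le _ _)).trans
      (Nat.add_le_add_right ((card_union_le _ _).trans
      (Nat.add_le_add_right ((card_union_le _ _).trans
      (Nat.add_le_add_right (card_union_le _ _) _)) _)) _)
    exact_mod_cast g2
  have g1 : 3 * (1 / 2 : ℝ) ^ V * ((RG X (zz X) (HH X) (kk X) V).card : ℝ) ≤ ε / 4 * X := by
    refine mul_le_mul ?_ hRS (Nat.cast_nonneg _) (by positivity)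
    linarith
  -- the good sets outside `R`
  have hsplit : ((SS X).filter (Gd A b)).card ≤ (R.filter (Gd A b)).card +
      (((SS X).filter fun S => 2 * ((0 : ℕ) : ℤ) ≤ kd S).card - R.card) ∧
      R.card ≤ ((SS X).filter fun S => 2 * ((0 : ℕ) : ℤ) ≤ kd S).card ∧
      (R.filter (Gd A b)).card ≤ ((SS X).filter (Gd A b)).card := by
    have hRsub : R ⊆ (SS X).filter fun S => 2 * ((0 : ℕ) : ℤ) ≤ kd S := by
      intro S hS
      rw [hR, mem_filter] at hS
      rw [mem_filter]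
      refine ⟨hS.1, ?_⟩
      have := hS.2
      push_cast
      linarith [Int.natCast_nonneg V]
    refine ⟨?_, card_le_card hRsub, card_le_card (filter_subset_filter _ (filter_subset _ _))⟩
    rw [← card_sdiff_of_subset hRsub]
    refine (card_le_card ?_).trans (card_union_le _ _)
    intro S hS
    rw [mem_filter] at hS
    obtain ⟨h1, h2⟩ := hS
    have h3 : 0 ≤ kd S := by
      refine hNEG A b S ?_ h2
      rw [SS, mem_filter] at h1
      exact h1.2.1.1
    rw [mem_union]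
    by_cases h4 : 2 * (V : ℤ) ≤ kd S
    · left
      rw [mem_filter, hR, mem_filter]
      exact ⟨⟨h1, h4⟩, h2⟩
    · right
      rw [Finset.mem_sdiff, Finset.mem_filter, hR, Finset.mem_filter]
      refine ⟨⟨h1, by simpa using h3⟩, fun h5 => h4 h5.2⟩
  obtain ⟨q1, q2, q3⟩ := hsplit
  have q1' : (((SS X).filter (Gd A b)).card : ℝ) ≤ ((R.filter (Gd A b)).card : ℝ) +
      ((((SS X).filter fun S => 2 * ((0 : ℕ) : ℤ) ≤ kd S).card : ℝ) - (R.card : ℝ)) := by
    rw [← Nat.cast_sub q2]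
    exact_mod_cast q1
  have q3' : ((R.filter (Gd A b)).card : ℝ) ≤ (((SS X).filter (Gd A b)).card : ℝ) := by
    exact_mod_cast q3
  have k1 := abs_le.1 hKD1
  have k2 := abs_le.1 hKD2
  have k3 := abs_le.1 hmain
  have k4 : |((R.filter (Gd A b)).card : ℝ) - c2 * (R.card : ℝ)| ≤ ε / 2 * X := by
    linarith
  have k5 := abs_le.1 k4
  obtain ⟨m0, m1⟩ := c2_mem
  have k6 : |c2 * ((R.card : ℝ) - 1 / 2 * ((SS X).card : ℝ))| ≤ ε / 8 * X := by
    rw [abs_mul, abs_of_nonneg m0]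
    calc c2 * |(R.card : ℝ) - 1 / 2 * ((SS X).card : ℝ)| ≤
        1 * |(R.card : ℝ) - 1 / 2 * ((SS X).card : ℝ)| :=
          mul_le_mul_of_nonneg_right m1 (abs_nonneg _)
      _ ≤ ε / 8 * X := by rw [one_mul]; exact hKD1
  have k7 := abs_le.1 k6
  have k8 : ((((SS X).filter fun S => 2 * ((0 : ℕ) : ℤ) ≤ kd S).card : ℝ) - (R.card : ℝ)) ≤
      ε / 4 * X := by
    have e1 := k2.2
    have e2 := k1.1
    linarith
  have k9 : (0 : ℝ) ≤ ε * X := by positivity
  rw [abs_le]
  constructor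
  · have u1 := k5.1
    have u2 := k7.1
    clear k1 k2 k3 k4 k5 k6 k7 hX hev hmain stot hout hcmp g1
    linarith
  · have u1 := k5.2
    have u2 := k7.2
    have u3 := q1'.trans (add_le_add le_rfl k8)
    clear k1 k2 k3 k4 k5 k6 k7 hX hev hmain stot hout hcmp g1 k8 q1' hKD1 hKD2 q3'
    linarith

/-- **The natural density.** -/
theorem asy (hKY : S_KY) (hNEG : S_NEG) : S_DEN := by
  intro A b hA
  have key := t_DQ hKY hNEG A b hA
  have hlow := Pool.Agent.L0h74.KD.KDL.low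
  have hnum : ∀ X : ℕ, ((Icc 1 X).filter fun D => Squarefree D ∧ D % 4 = 1 ∧ ¬ 7 ∣ D ∧
      Gd A b D.primeFactors).card = ((SS X).filter (Gd A b)).card := by
    intro X
    rw [Pool.Agent.L0h74.KD.KDL.card_eq]
    congr 1
    ext D
    simp only [Pool.Agent.L0h74.S4.GS, mem_filter, mem_Icc]
    have : ¬ 7 ∣ D ↔ D % 7 ≠ 0 := by
      rw [Nat.dvd_iff_mod_eq_zero]
    rw [this]
    tauto
  have hden : ∀ X : ℕ, ((Icc 1 X).filter fun D => Squarefree D ∧ D % 4 = 1 ∧ ¬ 7 ∣ D).card =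
      (SS X).card := by
    intro X
    rw [Pool.Agent.L0h74.KD.KDL.card_eq0]
    congr 1
    ext D
    simp only [Pool.Agent.L0h74.S4.GS, mem_filter, mem_Icc]
    have : ¬ 7 ∣ D ↔ D % 7 ≠ 0 := by
      rw [Nat.dvd_iff_mod_eq_zero]
    rw [this]
  rw [Metric.tendsto_atTop]
  intro ε hε
  obtain ⟨X₀, h0⟩ := eventually_atTop.1 ((key (ε / 40) (by linarith)).and hlow)
  refine ⟨X₀, fun X hX => ?_⟩
  obtain ⟨h1, h2, h3⟩ := h0 X hX
  rw [hnum, hden, Real.dist_eq]
  rw [← Pool.Agent.L0h74.KD.KDL.card_eq0] at h2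
  have hX0 : (0 : ℝ) < X := by exact_mod_cast h3
  have hS : (0 : ℝ) < (SS X).card := by
    have : (0 : ℝ) < 3 / 56 * X := by positivity
    linarith
  have e : (((SS X).filter (Gd A b)).card : ℝ) / ((SS X).card : ℝ) - c2 / 2 =
      ((((SS X).filter (Gd A b)).card : ℝ) - c2 / 2 * ((SS X).card : ℝ)) / ((SS X).card : ℝ) := by
    field_simp
  rw [e, abs_div, abs_of_pos hS, div_lt_iff₀ hS]
  have h4 : ε / 40 * X < ε * ((SS X).card : ℝ) := by
    have : ε / 40 * X < ε * (3 / 56 * X) := by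
      have : 0 < ε * X := by positivity
      linarith
    have := mul_le_mul_of_nonneg_left h2 hε.le
    linarith
  linarith

end Pool.Agent.L0h74.KD.Den
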