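import Pool.Agent.L0h74.KD.Den2
import Pool.Agent.L0h74.KD.KEY
import Pool.Agent.L0h1.KD.BX
import Pool.Agent.N19.GB.Parts

/-! # KD: the natural density `c2 / 2`, unconditionally -/

set_option autoImplicit false

namespace Pool.Agent.L0h74.KD.Fin

/-- **The natural density.** -/
theorem t_DEN : Pool.Agent.L0h1.KD.S_DEN :=
  Pool.Agent.L0h74.KD.Den.asy' (Pool.Agent.L0h74.KD.KEY.t_KEY Pool.Agent.N19.GB.t_BIL
    Pool.Agent.L0h1.KD.t_BX)

end Pool.Agent.L0h74.KD.Fin
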