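import Pool.Agent.L0h74.KD.Den
import Pool.Agent.L0h74.KD.NEG

/-! # KD: the density from the sum over the boxes alone -/

set_option autoImplicit false

namespace Pool.Agent.L0h74.KD.Den

/-- **The natural density**, from the sum over the boxes. -/
theorem asy' (hKY : Pool.Agent.L0h1.KD.S_KY) : Pool.Agent.L0h1.KD.S_DEN :=
  asy hKY Pool.Agent.L0h74.KD.NEG.t_NEG

end Pool.Agent.L0h74.KD.Den
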